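import Mathlib

set_option autoImplicit false

namespace Pool.Agent.Results.MP_8f3806_al.Iff

open Matrix
open scoped commutatorElement

/-- The closed neighbourhood `N[v]`. -/
def Nb {n : ℕ} (Γ : SimpleGraph (Fin n)) (v : Fin n) : Set (Fin n) := {u | u = v ∨ Γ.Adj v u}

/-- The element `g ^ v` of `G ^ V`. -/
noncomputable def gp {n : ℕ} (Γ : SimpleGraph (Fin n)) {G : Type} [Group G] (g : G) (v : Fin n) :
    Fin n → G := (Nb Γ v).mulIndicator fun _ => g

/-- The graph power `G ^ Γ`. -/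
def Pw {n : ℕ} (Γ : SimpleGraph (Fin n)) (G : Type) [Group G] : Subgroup (Fin n → G) :=
  Subgroup.closure {x | ∃ g v, x = gp Γ g v}

/-- The subgroup generated by the basic commutators. -/
def Cb {n : ℕ} (Γ : SimpleGraph (Fin n)) (G : Type) [Group G] : Subgroup (Fin n → G) :=
  Subgroup.closure {x | ∃ (g h : G) (v w : Fin n), x = ⁅gp Γ g v, gp Γ h w⁆}

/-- The RA matrix. -/
noncomputable def RA {n : ℕ} (Γ : SimpleGraph (Fin n)) : Matrix (Fin n × Fin n) (Fin n) ℤ :=
  Matrix.of fun r j => (Nb Γ r.1 ∩ Nb Γ r.2).indicator 1 j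

/-- `d` lists the diagonal entries of the Smith normal form of `C`. -/
def Smith {n : ℕ} (C : Matrix (Fin n × Fin n) (Fin n) ℤ) (d : Fin n → ℕ) : Prop :=
  (∀ i j, i ≤ j → d i ∣ d j) ∧ ∃ (U : Matrix (Fin n × Fin n) (Fin n × Fin n) ℤ)
    (W : Matrix (Fin n) (Fin n) ℤ) (e : Fin n ↪ Fin n × Fin n), IsUnit U.det ∧ IsUnit W.det ∧
      U * C * W = Matrix.of fun r j => if r = e j then (d j : ℤ) else 0

section Aux

/-- the affine group of the line -/
@[ext] structure Af (F : Type) [Field F] where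
  a : F
  u : Fˣ

variable {F : Type} [Field F]

instance : Group (Af F) where
  mul x y := ⟨x.a + x.u * y.a, x.u * y.u⟩
  one := ⟨0, 1⟩
  inv x := ⟨-(x.u⁻¹ : Fˣ) * x.a, x.u⁻¹⟩
  mul_assoc x y z := Af.ext (by
    change x.a + x.u * y.a + (x.u * y.u : Fˣ) * z.a = x.a + x.u * (y.a + y.u * z.a)
    push_cast; ring) (mul_assoc _ _ _)
  one_mul x := Af.ext (by change 0 + (1 : Fˣ) * x.a = x.a; simp) (one_mul _)
  mul_one x := Af.ext (by change x.a + x.u * 0 = x.a; simp) (mul_one _)
  inv_mul_cancel x := Af.ext (by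
    change -(x.u⁻¹ : Fˣ) * x.a + (x.u⁻¹ : Fˣ) * x.a = 0; simp) (inv_mul_cancel _)

@[simp] lemma mul_a (x y : Af F) : (x * y).a = x.a + x.u * y.a := rfl
@[simp] lemma mul_u (x y : Af F) : (x * y).u = x.u * y.u := rfl
@[simp] lemma inv_a (x : Af F) : x⁻¹.a = -(x.u⁻¹ : Fˣ) * x.a := rfl
@[simp] lemma inv_u (x : Af F) : x⁻¹.u = x.u⁻¹ := rfl
@[simp] lemma one_a : (1 : Af F).a = 0 := rfl
@[simp] lemma one_u : (1 : Af F).u = 1 := rfl

/-- translations -/
def tr (F : Type) [Field F] : Multiplicative F →* Af F where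
  toFun c := ⟨c.toAdd, 1⟩
  map_one' := rfl
  map_mul' x y := Af.ext (by simp) (by simp)

lemma tr_inj : Function.Injective (tr F) := fun _ _ h => congrArg Af.a h

lemma comm_eq (g h : Af F) : ⁅g, h⁆ = ⟨⁅g, h⁆.a, 1⟩ :=
  Af.ext rfl (by simp [commutatorElement_def])

lemma comm_all {u : Fˣ} (hu : u ≠ 1) (c : F) : ∃ g h : Af F, ⁅g, h⁆ = ⟨c, 1⟩ := by
  have : (1 : F) - u ≠ 0 := sub_ne_zero.2 fun h => hu (Units.ext h.symm)
  refine ⟨⟨c / (1 - u), 1⟩, ⟨0, u⟩, Af.ext ?_ (by simp [commutatorElement_def])⟩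
  simp [commutatorElement_def]
  field_simp
  ring

lemma comm_range {u : Fˣ} (hu : u ≠ 1) : commutator (Af F) = (tr F).range := by
  refine le_antisymm (Subgroup.commutator_le.2 fun g _ h _ => ⟨_, (comm_eq g h).symm⟩) ?_
  rintro _ ⟨c, rfl⟩
  obtain ⟨g, h, e⟩ := comm_all hu c.toAdd
  exact (show _ = tr F c from e) ▸ Subgroup.commutator_mem_commutator (Subgroup.mem_top _) (Subgroup.mem_top _)

/-- translations in each coordinate -/
def tv (F : Type) [Field F] (ι : Type) : Multiplicative (ι → F) →* (ι → Af F) where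
  toFun c i := ⟨c.toAdd i, 1⟩
  map_one' := rfl
  map_mul' x y := funext fun i => Af.ext (by simp) (by simp)

lemma tv_inj {ι : Type} : Function.Injective (tv F ι) :=
  fun _ _ h => funext fun i => congrArg Af.a (congrFun h i)

variable {n : ℕ} (Γ : SimpleGraph (Fin n))

lemma comm_gp (g h : Af F) (v w : Fin n) : ⁅gp Γ g v, gp Γ h w⁆ = tv F _ (Multiplicative.ofAdd
    (⁅g, h⁆.a • ((RA Γ).map (Int.castRingHom F)).row (v, w))) := by
  funext j
  change ⁅gp Γ g v j, gp Γ h w j⁆ = _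
  by_cases a : j ∈ Nb Γ v <;> by_cases b : j ∈ Nb Γ w <;> simp [gp, tv, RA, a, b]
  · exact comm_eq g h
  all_goals rfl

lemma cb_eq {u : Fˣ} (hu : u ≠ 1) : Cb Γ (Af F) = (Submodule.span F (Set.range
    ((RA Γ).map (Int.castRingHom F)).row)).toAddSubgroup.toSubgroup.map (tv F _) := by
  refine le_antisymm ((Subgroup.closure_le _).2 ?_) ?_
  · rintro _ ⟨g, h, v, w, rfl⟩
    refine ⟨_, ?_, (comm_gp Γ g h v w).symm⟩
    exact (Submodule.span F (Set.range ((RA Γ).map (Int.castRingHom F)).row)).smul_mem _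
      (Submodule.subset_span ⟨_, rfl⟩)
  · rintro _ ⟨x, hx, rfl⟩
    suffices ∀ y ∈ Submodule.span F (Set.range ((RA Γ).map (Int.castRingHom F)).row), ∀ c : F,
        tv F _ (Multiplicative.ofAdd (c • y)) ∈ Cb Γ (Af F) by
      have := this _ hx 1
      rwa [one_smul] at this
    intro y hy
    induction hy using Submodule.span_induction with
    | mem y h =>
      obtain ⟨⟨v, w⟩, rfl⟩ := h
      intro c
      obtain ⟨g, h, e⟩ := comm_all hu c
      exact Subgroup.subset_closure ⟨g, h, v, w, by rw [comm_gp, e]⟩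
    | zero => intro c; simp
    | add y z _ _ a b => intro c; rw [smul_add, ofAdd_add, map_mul]; exact mul_mem (a c) (b c)
    | smul e y _ a => intro c; rw [smul_smul]; exact a _

lemma rank_eq {C : Matrix (Fin n × Fin n) (Fin n) ℤ} {d : Fin n → ℕ} (h : Smith C d)
    (hd : ∀ i, d i ≠ 1 → (d i : F) = 0) :
    (C.map (Int.castRingHom F)).rank = n - {i | d i ≠ 1}.ncard := by
  classical
  obtain ⟨-, U, W, e, hU, hW, h⟩ := h
  have a := congrArg (fun M => M.map (Int.castRingHom F)) h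
  simp only [Matrix.map_mul] at a
  have k : ∀ {ι : Type} [Fintype ι] [DecidableEq ι] (M : Matrix ι ι ℤ), IsUnit M.det →
      IsUnit (M.map (Int.castRingHom F)).det := fun M h => by
    have := h.map (Int.castRingHom F)
    rwa [RingHom.map_det] at this
  rw [← rank_mul_eq_right_of_isUnit_det _ _ (k U hU), ← rank_mul_eq_left_of_isUnit_det _ _ (k W hW), a]
  have e1 : (Matrix.of fun r j => if r = e j then (d j : ℤ) else 0).map (Int.castRingHom F)
      = (1 : Matrix _ (Fin n × Fin n) F).submatrix id e * diagonal fun j => (d j : F) := by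
    ext r j
    by_cases k : r = e j <;> simp [one_apply, k]
  have e2 : (diagonal fun j => (d j : F)) = ((1 : Matrix _ (Fin n × Fin n) F).submatrix id e
      * diagonal fun j => (d j : F)).submatrix e id := by
    ext i j
    by_cases k : i = j <;> simp [one_apply, k]
  rw [e1, le_antisymm (rank_mul_le_right _ _) (by
    conv_lhs => rw [e2]
    exact rank_submatrix_le _ _ _), rank_diagonal, ← Nat.card_eq_fintype_card]
  have := Set.ncard_add_ncard_compl {i | d i ≠ 1}
  rw [Nat.card_eq_fintype_card, Fintype.card_fin] at this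
  rw [show Nat.card {i // (d i : F) ≠ 0} = ({i | d i ≠ 1}ᶜ).ncard from
    congrArg Set.ncard (Set.ext fun i => ⟨fun a b => a (hd i b), fun a => by
      have : d i = 1 := not_not.1 a
      change (d i : F) ≠ 0
      simp [this]⟩ : {i | (d i : F) ≠ 0} = _)]
  omega

lemma ra {u : Fˣ} (hu : u ≠ 1) (hΓ : Function.Injective (Nb Γ)) :
    Subgroup.pi Set.univ (fun _ => commutator (Af F)) ≤ Pw Γ (Af F) := by
  classical
  have ne : (u : F) - 1 ≠ 0 := sub_ne_zero.2 fun h => hu (Units.ext h)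
  have step : ∀ (S : Set (Fin n)) (w : Fin n),
      (∀ c : F, tv F _ (Multiplicative.ofAdd (S.indicator fun _ => c)) ∈ Pw Γ (Af F)) →
      (∀ c : F, tv F _ (Multiplicative.ofAdd ((S ∩ Nb Γ w).indicator fun _ => c)) ∈ Pw Γ (Af F)) ∧
      (∀ c : F, tv F _ (Multiplicative.ofAdd ((S \ Nb Γ w).indicator fun _ => c)) ∈ Pw Γ (Af F)) := by
    intro S w h
    have a : ∀ c : F, tv F _ (Multiplicative.ofAdd ((S ∩ Nb Γ w).indicator fun _ => c))
        ∈ Pw Γ (Af F) := fun c => by
      have g : gp Γ (⟨0, u⟩ : Af F) w ∈ Pw Γ (Af F) := Subgroup.subset_closure ⟨_, _, rfl⟩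
      convert mul_mem (mul_mem (mul_mem g (h (c / (u - 1)))) (inv_mem g)) (inv_mem (h (c / (u - 1))))
      funext j
      by_cases a : j ∈ S <;> by_cases b : j ∈ Nb Γ w <;> ext <;> simp [gp, tv, a, b]
      field_simp
      ring
    refine ⟨a, fun c => ?_⟩
    convert mul_mem (h c) (inv_mem (a c))
    funext j
    by_cases a : j ∈ S <;> by_cases b : j ∈ Nb Γ w <;> ext <;> simp [tv, a, b]
  have one : ∀ (v : Fin n) (T : Finset (Fin n)), ∃ S : Set (Fin n), v ∈ S ∧ (∀ j ∈ T, j ∈ S → j = v)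
      ∧ ∀ c : F, tv F _ (Multiplicative.ofAdd (S.indicator fun _ => c)) ∈ Pw Γ (Af F) := by
    intro v T
    induction T using Finset.induction_on with
    | empty =>
      refine ⟨Nb Γ v, Or.inl rfl, by simp, fun c => Subgroup.subset_closure ⟨⟨c, 1⟩, v, ?_⟩⟩
      funext j
      by_cases a : j ∈ Nb Γ v <;> ext <;> simp [gp, tv, a]
    | insert j T _ ih =>
      obtain ⟨S, a, b, c⟩ := ih
      by_cases e : j = v
      · exact ⟨S, a, by simpa [e] using b, c⟩
      obtain ⟨w, hw⟩ := not_forall.1 fun k => e (hΓ (Set.ext k))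
      have sy : ∀ x y, x ∈ Nb Γ y ↔ y ∈ Nb Γ x := fun x y => by
        simp only [Nb, Set.mem_ofPred_eq, Γ.adj_comm x, eq_comm (a := x)]
      rw [sy w, sy w] at hw
      by_cases m : v ∈ Nb Γ w
      · refine ⟨S ∩ Nb Γ w, ⟨a, m⟩, ?_, (step S w c).1⟩
        simp only [Finset.forall_mem_insert]
        exact ⟨fun k => absurd (iff_of_true k.2 m) hw, fun i hi k => b i hi k.1⟩
      · refine ⟨S \ Nb Γ w, ⟨a, m⟩, ?_, (step S w c).2⟩
        simp only [Finset.forall_mem_insert]
        exact ⟨fun k => absurd (iff_of_false k.2 m) hw, fun i hi k => b i hi k.1⟩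
  rw [Subgroup.pi_le_iff]
  rintro v _ ⟨x, hx, rfl⟩
  rw [comm_range hu] at hx
  obtain ⟨c, rfl⟩ := hx
  obtain ⟨S, a, b, d⟩ := one v Finset.univ
  convert d c.toAdd
  funext j
  by_cases e : j = v
  · subst e; simp [tv, tr, a]
  · have : j ∉ S := fun k => e (b j (Finset.mem_univ j) k)
    ext <;> simp [tv, e, this]

end Aux

/-- A finite nonabelian group with `Comm_b(G, Γ) ≅ [G,G] ^ (n - k)` for which `Γ` is `G`-RA exists
exactly when distinct vertices have distinct closed neighbourhoods. -/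
theorem result (n : ℕ) (Γ : SimpleGraph (Fin n)) (d : Fin n → ℕ) (hd : Smith (RA Γ) d) :
    (∃ (G : Type) (_ : Group G) (_ : Finite G), (∃ a b : G, a * b ≠ b * a) ∧
      Nonempty (Cb Γ G ≃* (Fin (n - {i | d i ≠ 1}.ncard) → commutator G)) ∧
      Subgroup.pi Set.univ (fun _ => commutator G) ≤ Pw Γ G) ↔ Function.Injective (Nb Γ) := by
  classical
  constructor
  · rintro ⟨G, _, _, ⟨a, b, ab⟩, -, h⟩ v w e
    by_contra ne
    have k : Pw Γ G ≤ (Pi.evalMonoidHom (fun _ => G) v).eqLocus (Pi.evalMonoidHom (fun _ => G) w) := by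
      refine (Subgroup.closure_le _).2 ?_
      rintro _ ⟨g, x, rfl⟩
      have sy : ∀ x y, x ∈ Nb Γ y ↔ y ∈ Nb Γ x := fun x y => by
        simp only [Nb, Set.mem_ofPred_eq, Γ.adj_comm x, eq_comm (a := x)]
      change gp Γ g x v = gp Γ g x w
      simp only [gp, Set.mulIndicator_apply, sy _ x, e]
    have : Pi.mulSingle (M := fun _ => G) v ⁅a, b⁆ v = Pi.mulSingle (M := fun _ => G) v ⁅a, b⁆ w :=
      k (h (x := Pi.mulSingle (M := fun _ => G) v ⁅a, b⁆) fun j _ => by
        by_cases e : j = v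
        · subst e
          rw [Pi.mulSingle_eq_same]
          exact Subgroup.commutator_mem_commutator (Subgroup.mem_top a) (Subgroup.mem_top b)
        · simp [e])
    rw [Pi.mulSingle_eq_same, Pi.mulSingle_eq_of_ne' ne, commutatorElement_eq_one_iff_mul_comm] at this
    exact ab this
  · intro h
    obtain ⟨p, hp, pd⟩ : ∃ p : ℕ, p.Prime ∧ ∀ i, d i ≠ 1 → p ∣ d i := by
      by_cases e : (Finset.univ.filter fun i => d i ≠ 1).Nonempty
      · obtain ⟨p, a, b⟩ := Nat.exists_prime_and_dvd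
          (Finset.mem_filter.1 (Finset.min'_mem _ e)).2
        exact ⟨p, a, fun i hi => b.trans (hd.1 _ _ (Finset.min'_le _ _ (by simpa using hi)))⟩
      · exact ⟨2, Nat.prime_two, fun i hi => absurd ⟨i, by simpa using hi⟩ e⟩
    have := Fact.mk hp
    obtain ⟨u, hu⟩ : ∃ u : (GaloisField p 2)ˣ, u ≠ 1 := by
      have : Nontrivial (GaloisField p 2)ˣ := by
        rw [← Finite.one_lt_card_iff_nontrivial, Nat.card_units, GaloisField.card p 2 two_ne_zero]
        have := hp.two_le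
        have : 4 ≤ p ^ 2 := by nlinarith
        omega
      exact exists_ne 1
    refine ⟨Af (GaloisField p 2), inferInstance,
      Finite.of_injective (fun x => (x.a, x.u)) fun x y e => Af.ext (Prod.mk.inj e).1 (Prod.mk.inj e).2,
      ?_, ?_, ra Γ hu h⟩
    · obtain ⟨g, h, e⟩ := comm_all hu 1
      refine ⟨g, h, fun k => ?_⟩
      rw [commutatorElement_eq_one_iff_mul_comm.2 k] at e
      simpa using congrArg Af.a e
    · have r := rank_eq (F := GaloisField p 2) hd fun i hi => (CharP.cast_eq_zero_iff _ p _).2 (pd i hi)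
      rw [rank_eq_finrank_span_row] at r
      rw [cb_eq Γ hu, comm_range hu]
      exact ⟨((Subgroup.equivMapOfInjective _ _ tv_inj).symm.trans
        (AddEquiv.toMultiplicative (LinearEquiv.ofFinrankEq _ (Fin _ → GaloisField p 2)
          (r.trans (by simp))).toAddEquiv)).trans ((MulEquiv.funMultiplicative _ _).trans
          (MulEquiv.piCongrRight fun _ => MonoidHom.ofInjective tr_inj))⟩

end Pool.Agent.Results.MP_8f3806_al.Iff
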